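import Pool.Agent.Y155.CT.Act

/-!
# Project CT: CT-MWK
-/

set_option autoImplicit false
set_option linter.unusedVariables false

open scoped Classical

namespace Pool.Agent.Y155.CT

open WeierstrassCurve
open Pool.Agent.Y692.QS (Ei w nr toC)
open Pool.Agent.Y715.T.Gi Pool.Agent.Y715.T.Nr Pool.Agent.Y715.T.Df Pool.Agent.Y715.T.Ell
open Pool.Agent.Y703.CT

variable {i₀ : QB} (hi : i₀ ^ 2 + i₀ + 1 = 0) (a : GK i₀ → ZMod 3)

/-- the points over `ℚ(ω)` -/
noncomputable def AG : AddSubgroup (Pt QB) where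
  carrier := {P | ∀ σ, ah hi a σ P = P}
  zero_mem' := fun σ => map_zero _
  add_mem' := fun h h' σ => by rw [map_add, h, h']
  neg_mem' := fun h σ => by rw [map_neg, h]

variable {hi a}

lemma dd_mem {P : Pt QB} (h : P ∈ AG hi a) : dd hi P ∈ AG hi a := fun σ => by
  rw [ah_dd, h σ]

lemma im_mem {P : Pt QB} (h : P ∈ AG hi a) : im (isE QB) hi P ∈ AG hi a := fun σ => by
  rw [ah_im, h σ]

lemma tt_mem (c : ZMod 3) : tt QB c ∈ AG hi a := fun σ => ah_tt hi a σ c

/-- `T` is not in `(1 - ω) A` -/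
lemma tt_of_dd (hne : ∃ σ, a σ ≠ 0) {P : Pt QB} (hP : P ∈ AG hi a) {c : ZMod 3}
    (h : dd hi P = tt QB c) : ∃ d, P = tt QB d := by
  have h1 : dd hi (P - c.val • T3 hi) = 0 := by
    rw [map_sub, map_nsmul, dd_T3, nsmul_tt, mul_one, ZMod.natCast_zmod_val, h, sub_self]
  obtain ⟨d, hd⟩ := dd_ker hi h1
  obtain ⟨σ, hσ⟩ := hne
  have h2 : P = c.val • T3 hi + tt QB d := by rw [← hd]; abel
  have h3 : -tt QB (c * a σ) = 0 := by
    rw [← ah_nT3 hi a σ c]
    have h4 := hP σ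
    rw [h2, map_add, ah_tt] at h4
    rw [add_right_cancel h4, sub_self]
  rw [neg_eq_zero, tt_eq_zero] at h3
  have h5 : c = 0 := (mul_eq_zero.1 h3).resolve_right hσ
  refine ⟨d, ?_⟩
  rw [h2, h5, ZMod.val_zero, zero_smul, zero_add]

lemma three_tor (hne : ∃ σ, a σ ≠ 0) {P : Pt QB} (hP : P ∈ AG hi a) {c : ZMod 3}
    (h : 3 • P = tt QB c) : ∃ d, P = tt QB d := by
  have h1 : dd hi (dd hi P) = tt QB (-c) := by
    rw [dd_dd, h, im_tt, tt_neg]
  obtain ⟨d, hd⟩ := tt_of_dd hne (dd_mem hP) h1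
  exact tt_of_dd hne hP hd

lemma pow_tor (hne : ∃ σ, a σ ≠ 0) (n : ℕ) : ∀ {P : Pt QB}, P ∈ AG hi a → 3 ^ n • P = 0 →
    ∃ d, P = tt QB d := by
  induction n with
  | zero =>
    intro P hP h
    rw [pow_zero, one_smul] at h
    exact ⟨0, by rw [h, tt_zero]⟩
  | succ n ih =>
    intro P hP h
    have h1 : 3 ^ n • ((3 : ℕ) • P) = 0 := by rw [smul_smul, ← pow_succ]; exact h
    obtain ⟨d, hd⟩ := ih (nsmul_mem hP 3) h1
    exact three_tor hne hP hd

/-- descent -/
lemma AG_dd (ha : ∀ σ τ, a (σ * τ) = a σ + a τ) (hc : IsLocallyConstant a) (hs : Sel1 hi a)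
    {P : Pt QB} (hP : P ∈ AG hi a) : ∃ P' ∈ AG hi a, ∃ c, P = dd hi P' + tt QB c := by
  obtain ⟨R, rfl⟩ := dd_surj hi P
  have h0 : ∀ σ, dd hi (ah hi a σ R - R) = 0 := fun σ => by
    rw [map_sub, ← ah_dd, hP σ, sub_self]
  -- the coboundary of `R` is a multiple of that of `T3`
  have hex : ∀ σ, ∃ c : ZMod 3, ah hi a σ R - R = tt QB c := fun σ => dd_ker hi (h0 σ)
  have hf := co_cob (hi := hi) ha hc R
  choose h hh using hex
  have hcont : IsLocallyConstant h := by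
    have e : h = (fun P : Pt QB =>
        if hx : ∃ c : ZMod 3, P = tt QB c then hx.choose else 0) ∘ (fun σ => ah hi a σ R - R) := by
      ext1 σ
      show h σ = if hx : ∃ c : ZMod 3, ah hi a σ R - R = tt QB c then hx.choose else 0
      have hx : ∃ c : ZMod 3, ah hi a σ R - R = tt QB c := ⟨h σ, hh σ⟩
      rw [dif_pos hx]
      exact tt_inj ((hh σ).symm.trans hx.choose_spec)
    rw [e]
    exact hf.lc.comp _
  have hmul : ∀ σ τ, h (σ * τ) = h σ + h τ := by
    intro σ τ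
    apply tt_inj (L := QB)
    rw [← hh, hf.co, hh σ, hh τ, ah_tt, tt_add]
  obtain ⟨c, hc'⟩ := hs h hcont hmul (by
    intro p _ ι
    obtain ⟨R', hR'⟩ := hf.lo p ι
    refine ⟨R', fun τ σ hc => ?_⟩
    have h1 := hR' τ σ hc
    rw [hh σ, pm_tt] at h1
    exact h1.symm)
  refine ⟨R + c.val • T3 hi, fun σ => ?_, -c, ?_⟩
  · have h1 := ah_nT3 hi a σ c
    have h2 := hh σ
    rw [hc' σ] at h2
    have h3 : ah hi a σ (R + c.val • T3 hi) = (ah hi a σ R - R) +
        (ah hi a σ (c.val • T3 hi) - c.val • T3 hi) + (R + c.val • T3 hi) := by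
      rw [map_add]
      abel
    rw [h3, h1, h2, add_neg_cancel, zero_add]
  · rw [map_add, map_nsmul, dd_T3, nsmul_tt, mul_one, ZMod.natCast_zmod_val, ← tt_neg]
    abel

/-- points with coordinates in a number field -/
lemma fg_of_incl (F : Type) [Field F] [NumberField F] (incl : F →+* QB)
    (H : AddSubgroup (Pt QB))
    (h : ∀ P ∈ H, P = 0 ∨ ∃ (x y : F)
      (hn : (W0.baseChange QB).toAffine.Nonsingular (incl x) (incl y)), P = .some _ _ hn) :
    Module.Finite ℤ H := by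
  let φ : F →ₐ[ℚ] QB := incl.toRatAlgHom
  have hfgE : AddGroup.FG (Pt F) := Pool.Agent.Y715.T.Mw.mw F
  have h2 : Module.Finite ℤ (Pt F) := Module.Finite.iff_addGroup_fg.2 hfgE
  have h4 : AddGroup.FG (pm φ).range := by
    rw [← Module.Finite.iff_addGroup_fg]
    exact Module.Finite.of_surjective (pm φ).rangeRestrict.toIntLinearMap
      (pm φ).rangeRestrict_surjective
  have h5 : Module.Finite ℤ (H.addSubgroupOf (pm φ).range) := Pool.Agent.Y715.T.Mw.fg_sub h4 _
  have h6 : H ≤ (pm φ).range := by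
    intro P hP
    rcases h P hP with h8 | ⟨x, y, hn, h8⟩
    · exact ⟨0, by rw [h8]; exact Pool.Agent.Y715.T.Df.pm_zero _⟩
    · have hn' : (W0.baseChange F).toAffine.Nonsingular x y := by
        apply (isE F).nons
        have he := ((isE QB).eqn _ _).1 hn.1
        apply incl.injective
        rw [map_add, map_pow, map_pow]
        exact he
      exact ⟨.some x y hn', by rw [h8]; rfl⟩
  exact Module.Finite.of_surjective
    (AddSubgroup.addSubgroupOfEquivOfLe h6).toAddMonoidHom.toIntLinearMap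
    (AddSubgroup.addSubgroupOfEquivOfLe h6).surjective

lemma AG_fg (ha : ∀ σ τ, a (σ * τ) = a σ + a τ) (hc : IsLocallyConstant a) :
    Module.Finite ℤ (AG hi a) := by
  have ha1 : a 1 = 0 := by
    have h := ha 1 1
    rw [mul_one] at h
    exact (left_eq_add.1 h)
  -- a finite extension
  have h1 : a ⁻¹' {0} ∈ nhds (1 : GK i₀) :=
    (hc.isOpen_fiber 0).mem_nhds (by show a 1 = 0; exact ha1)
  rw [krullTopology_mem_nhds_one_iff] at h1
  obtain ⟨E, hE, hEa⟩ := h1
  have hfd : FiniteDimensional ℚ (KK i₀) :=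
    IntermediateField.adjoin.finiteDimensional (Algebra.IsIntegral.isIntegral i₀)
  have hfdE : FiniteDimensional ℚ E := FiniteDimensional.trans ℚ (KK i₀) E
  have : CharZero E := charZero_of_injective_algebraMap (algebraMap (KK i₀) E).injective
  have hnf : @NumberField E _ :=
    { to_charZero := inferInstance
      to_finiteDimensional :=
        (fun (m1 m2 : Module ℚ E) (h : m1 = m2) (hf : @Module.Finite ℚ E _ _ m1) =>
          (h ▸ hf : @Module.Finite ℚ E _ _ m2)) _ _ (Subsingleton.elim _ _) hfdE }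
  refine fg_of_incl E E.val.toRingHom (AG hi a) ?_
  intro P hP
  have hfix : ∀ σ : GK i₀, σ ∈ E.fixingSubgroup → pm (gh σ) P = P := by
    intro σ hσ
    have haσ : a σ = 0 := hEa hσ
    have h3 := hP σ
    rw [ah_apply, act_def, haσ] at h3
    exact h3
  rcases hPj : P with _ | ⟨x, y, h⟩
  · exact Or.inl rfl
  · right
    rw [hPj] at hfix
    have hmem : ∀ w : QB, (∀ σ : GK i₀, σ ∈ E.fixingSubgroup → σ w = w) → w ∈ E := by
      intro w hw
      rw [← InfiniteGalois.fixedField_fixingSubgroup E, IntermediateField.mem_fixedField_iff]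
      exact hw
    have hx : x ∈ E := hmem x fun σ hσ => by
      have h3 := hfix σ hσ
      rw [pm_some, Affine.Point.some.injEq] at h3
      exact h3.1
    have hy : y ∈ E := hmem y fun σ hσ => by
      have h3 := hfix σ hσ
      rw [pm_some, Affine.Point.some.injEq] at h3
      exact h3.2
    exact ⟨⟨x, hx⟩, ⟨y, hy⟩, h, rfl⟩

lemma three_tt (c : ZMod 3) : (3 : ℤ) • tt QB c = 0 := by
  have h : (3 : ℤ) • tt QB c = (3 : ℕ) • tt QB c := by norm_cast
  rw [h, nsmul_tt]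
  have h3 : ((3 : ℕ) : ZMod 3) * c = 0 := by
    have : ((3 : ℕ) : ZMod 3) = 0 := by decide
    rw [this, zero_mul]
  rw [h3, tt_zero]

/-- the group `(1 - ω) A` is killed by a number prime to three -/
lemma odd_kill (ha : ∀ σ τ, a (σ * τ) = a σ + a τ) (hc : IsLocallyConstant a) (hs : Sel1 hi a) :
    ∃ r : ℤ, r ≠ 0 ∧ ∀ P ∈ AG hi a, r • dd hi P = 0 := by
  have hfg := AG_fg (hi := hi) ha hc
  let C : AddSubgroup (Pt QB) := (AG hi a).map (dd hi)
  have hCdl : ∀ Q ∈ C, ∃ Q' ∈ C, dd hi Q' = Q := by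
    rintro _ ⟨P, hP, rfl⟩
    obtain ⟨P', hP', c, e⟩ := AG_dd ha hc hs hP
    refine ⟨dd hi P', ⟨P', hP', rfl⟩, ?_⟩
    have h2 : dd hi P = dd hi (dd hi P' + tt QB c) := congrArg _ e
    rw [map_add, dd_tt, add_zero] at h2
    exact h2.symm
  have hthree : ∀ Q ∈ C, ∃ Q' ∈ C, Q = 3 • Q' := by
    intro Q hQ
    obtain ⟨Q₁, hQ₁, e₁⟩ := hCdl Q hQ
    obtain ⟨Q₂, hQ₂, e₂⟩ := hCdl Q₁ hQ₁
    refine ⟨-im (isE QB) hi Q₂, ?_, ?_⟩
    · obtain ⟨P, hP, rfl⟩ := hQ₂
      refine ⟨-im (isE QB) hi P, neg_mem (im_mem hP), ?_⟩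
      rw [map_neg, dd_apply, dd_apply, map_sub]
    · rw [← e₁, ← e₂, dd_dd, map_nsmul, smul_neg]
  have hCfg : Module.Finite ℤ C := by
    let f : AG hi a →+ C :=
      { toFun := fun P => ⟨dd hi P.1, P.1, P.2, rfl⟩
        map_zero' := Subtype.ext (map_zero _)
        map_add' := fun P Q => Subtype.ext (map_add _ _ _) }
    refine Module.Finite.of_surjective f.toIntLinearMap ?_
    rintro ⟨_, P, hP, rfl⟩
    exact ⟨⟨P, hP⟩, rfl⟩
  obtain ⟨r, hr1, hr2⟩ := Submodule.exists_sub_one_mem_and_smul_eq_zero_of_fg_of_le_smul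
    (Ideal.span {(3 : ℤ)}) (⊤ : Submodule ℤ C) (Module.finite_def.1 hCfg) (by
      rintro ⟨Q, hQ⟩ -
      obtain ⟨Q', hQ', e⟩ := hthree Q hQ
      have h1 : (⟨Q, hQ⟩ : C) = (3 : ℤ) • ⟨Q', hQ'⟩ := by
        apply Subtype.ext
        show Q = (3 : ℤ) • Q'
        rw [e]
        norm_cast
      rw [h1]
      exact Submodule.smul_mem_smul (Ideal.mem_span_singleton_self _) Submodule.mem_top)
  refine ⟨r, ?_, fun P hP => ?_⟩
  · rw [Ideal.mem_span_singleton] at hr1
    obtain ⟨m, hm⟩ := hr1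
    omega
  · have h1 := hr2 (⟨dd hi P, P, hP, rfl⟩ : C) Submodule.mem_top
    exact congrArg Subtype.val h1

lemma AG_finite (ha : ∀ σ τ, a (σ * τ) = a σ + a τ) (hc : IsLocallyConstant a) (hs : Sel1 hi a) :
    Finite (AG hi a) := by
  have hfg := AG_fg (hi := hi) ha hc
  obtain ⟨r, hr0, h1⟩ := odd_kill (hi := hi) ha hc hs
  have htor : Module.IsTorsion ℤ (AG hi a) := by
    rintro ⟨P, hP⟩
    refine ⟨⟨3 * r, mem_nonZeroDivisors_of_ne_zero (mul_ne_zero three_ne_zero hr0)⟩, ?_⟩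
    apply Subtype.ext
    show (3 * r) • P = 0
    obtain ⟨P', hP', c, e⟩ := AG_dd ha hc hs hP
    rw [mul_comm, mul_smul]
    have h2 : (3 : ℤ) • P = dd hi ((3 : ℤ) • P') := by
      rw [map_zsmul]
      nth_rw 1 [e]
      rw [smul_add, three_tt, add_zero]
    rw [h2]
    exact h1 _ (zsmul_mem hP' 3)
  exact Module.finite_of_fg_torsion (AG hi a) htor

theorem t_MWK : S_MWK := by
  intro D hD i₀ hi u a hT hne hs
  have ha := a_mul hD hT
  have hc := a_cont hD hT
  refine ⟨?_, ?_⟩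
  · have h1 : Finite (AG hi a) := AG_finite ha hc hs
    exact h1
  · intro P hP n hn
    obtain ⟨d, hd⟩ := pow_tor hne n (P := P) hP hn
    rcases z3 d with rfl | rfl | rfl
    · left; rw [hd, tt_zero]
    · right; left; rw [hd, tt_one]
    · right; right; rw [hd, tt_neg_one]

end Pool.Agent.Y155.CT
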