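import Pool.Agent.Y703.CT.StmC
import Pool.Agent.Y715.T.Mw

/-!
# Project CT: the twisted action on the points, CT-SHK and CT-MWK
-/

set_option autoImplicit false
set_option linter.unusedVariables false
set_option linter.style.haveILetI false

open scoped Classical

namespace Pool.Agent.Y155.CT

open WeierstrassCurve
open Pool.Agent.Y692.QS (Ei w nr toC)
open Pool.Agent.Y715.T.Gi Pool.Agent.Y715.T.Nr Pool.Agent.Y715.T.Df Pool.Agent.Y715.T.Ell
open Pool.Agent.Y703.CT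

section field

variable {F L : Type} [Field F] [Field L] [Algebra ℚ F] [Algebra ℚ L] [CharZero F] [CharZero L]
variable {I : F} (hI : I ^ 2 + I + 1 = 0)

lemma im3 (P : Pt F) : im (isE F) hI (im (isE F) hI (im (isE F) hI P)) = P := by
  rw [im_im, im_im]
  abel

lemma it_mod (n : ℕ) (P : Pt F) : (im (isE F) hI)^[n] P = (im (isE F) hI)^[n % 3] P := by
  have h3 : (im (isE F) hI)^[3] = id := funext fun Q => im3 hI Q
  conv_lhs => rw [← Nat.mod_add_div n 3]
  rw [Function.iterate_add_apply, Function.iterate_mul, h3, Function.iterate_id, id]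

lemma jj_zero (c : ZMod 3) : jj hI c 0 = 0 := iterate_map_zero _ _

lemma jj_add (c : ZMod 3) (P Q : Pt F) : jj hI c (P + Q) = jj hI c P + jj hI c Q :=
  iterate_map_add _ _ _ _

lemma jj_jj (c d : ZMod 3) (P : Pt F) : jj hI c (jj hI d P) = jj hI (c + d) P := by
  unfold jj
  rw [← Function.iterate_add_apply, ZMod.val_add, it_mod]

lemma jj_im (c : ZMod 3) (P : Pt F) : jj hI c (im (isE F) hI P) = im (isE F) hI (jj hI c P) := by
  unfold jj
  rw [← Function.iterate_succ_apply, Function.iterate_succ_apply']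

lemma jj_tt (c d : ZMod 3) : jj hI c (tt F d) = tt F d := by
  unfold jj
  generalize c.val = n
  induction n with
  | zero => rfl
  | succ n ih => rw [Function.iterate_succ_apply', ih, im_tt]

lemma pm_jj (φ : F →ₐ[ℚ] L) {I' : L} (hI' : I' ^ 2 + I' + 1 = 0) (h : φ I = I') (c : ZMod 3)
    (P : Pt F) : pm φ (jj hI c P) = jj hI' c (pm φ P) := by
  unfold jj
  generalize c.val = n
  induction n with
  | zero => rfl
  | succ n ih => rw [Function.iterate_succ_apply', Function.iterate_succ_apply',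
      pm_im φ hI hI' h, ih]

/-- the powers as homomorphisms -/
noncomputable def jh (c : ZMod 3) : Pt F →+ Pt F where
  toFun := jj hI c
  map_zero' := jj_zero hI c
  map_add' := jj_add hI c

lemma jh_apply (c : ZMod 3) (P : Pt F) : jh hI c P = jj hI c P := rfl

/-- `1 - ω` -/
noncomputable def dd : Pt F →+ Pt F := AddMonoidHom.id _ - im (isE F) hI

lemma dd_apply (P : Pt F) : dd hI P = P - im (isE F) hI P := rfl

lemma dd_dd (P : Pt F) : dd hI (dd hI P) = -im (isE F) hI (3 • P) := by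
  rw [dd_apply, dd_apply, map_sub, im_im, map_nsmul]
  abel

lemma dd_surj [IsAlgClosed F] (Q : Pt F) : ∃ P, dd hI P = Q := surj_im (isE F) hI Q

lemma dd_ker {P : Pt F} (h : dd hI P = 0) : ∃ c, P = tt F c := ker_tt hI h

lemma dd_tt (c : ZMod 3) : dd hI (tt F c) = 0 := by rw [dd_apply, im_tt, sub_self]

lemma nsmul_tt (n : ℕ) (c : ZMod 3) : n • tt F c = tt F ((n : ZMod 3) * c) := by
  induction n with
  | zero => rw [zero_smul, Nat.cast_zero, zero_mul, tt_zero]
  | succ n ih => rw [succ_nsmul, ih, ← tt_add, Nat.cast_succ, add_mul, one_mul]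

omit [Algebra ℚ F] [CharZero F] in
include hI in
lemma T3_eqn : (I ^ 2) ^ 2 + I ^ 2 = (-1 : F) ^ 3 := by
  linear_combination (I ^ 2 - I + 1) * hI

/-- a point of order three with `(1 - ω) T3 = T` -/
noncomputable def T3 : Pt F := .some (-1) (I ^ 2) ((isE F).nons (T3_eqn hI))

lemma dd_T3 : dd hI (T3 hI) = tt F 1 := by
  have hn := (isE F).nons (T3_eqn hI)
  obtain ⟨X, h, e, hX⟩ := one_sub_im (isE F) hI hn (by norm_num : (-1 : F) ≠ 0)
  have hg : gg I (Affine.Point.some (-1) (I ^ 2) hn : (W0.baseChange F).toAffine.Point) = 0 := by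
    rw [gg_some, sub_self, zero_div]
  have hX0 : X = 0 := by
    have h3 : (3 : F) * X = 0 := by linear_combination hX
    exact (mul_eq_zero.1 h3).resolve_left three_ne_zero
  have e2 : dd hI (T3 hI) = .some X _ h := e
  rw [e2, tt_one]
  unfold T0
  rw [Affine.Point.some.injEq]
  exact ⟨hX0, by rw [hg]; ring⟩

lemma im_T3 : im (isE F) hI (T3 hI) = T3 hI - tt F 1 := by
  rw [← dd_T3 hI, dd_apply]
  abel

lemma jj_T3 (c : ZMod 3) : jj hI c (T3 hI) = T3 hI - tt F c := by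
  have h : ∀ n : ℕ, (im (isE F) hI)^[n] (T3 hI) = T3 hI - tt F (n : ZMod 3) := by
    intro n
    induction n with
    | zero => rw [Nat.cast_zero, tt_zero, sub_zero]; rfl
    | succ n ih =>
      rw [Function.iterate_succ_apply', ih, map_sub, im_tt, im_T3, Nat.cast_succ, tt_add]
      abel
  have h1 := h c.val
  rwa [ZMod.natCast_zmod_val] at h1

lemma pm_T3 (φ : F →ₐ[ℚ] L) {I' : L} (hI' : I' ^ 2 + I' + 1 = 0) (h : φ I = I') :
    pm φ (T3 hI) = T3 hI' := by
  unfold T3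
  rw [pm_some, Affine.Point.some.injEq]
  exact ⟨by rw [map_neg, map_one], by rw [map_pow, h]⟩

end field

section action

variable {i₀ : QB} (hi : i₀ ^ 2 + i₀ + 1 = 0) (a : GK i₀ → ZMod 3)

lemma act_def (σ : GK i₀) (P : Pt QB) : act hi a σ P = jj hi (a σ) (pm (gh σ) P) := rfl

lemma act_zero (σ : GK i₀) : act hi a σ 0 = 0 := by
  rw [act_def, Pool.Agent.Y715.T.Df.pm_zero, jj_zero]

lemma act_add (σ : GK i₀) (P Q : Pt QB) : act hi a σ (P + Q) = act hi a σ P + act hi a σ Q := by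
  rw [act_def, map_add, jj_add]
  rfl

/-- the action as homomorphisms -/
noncomputable def ah (σ : GK i₀) : Pt QB →+ Pt QB where
  toFun := act hi a σ
  map_zero' := act_zero hi a σ
  map_add' := act_add hi a σ

lemma ah_apply (σ : GK i₀) (P : Pt QB) : ah hi a σ P = act hi a σ P := rfl

lemma ah_im (σ : GK i₀) (P : Pt QB) :
    ah hi a σ (im (isE QB) hi P) = im (isE QB) hi (ah hi a σ P) := by
  rw [ah_apply, ah_apply, act_def, act_def, pm_im (gh σ) hi hi (gk_fix σ), jj_im]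

lemma ah_dd (σ : GK i₀) (P : Pt QB) : ah hi a σ (dd hi P) = dd hi (ah hi a σ P) := by
  rw [dd_apply, map_sub, ah_im]
  rfl

lemma ah_tt (σ : GK i₀) (c : ZMod 3) : ah hi a σ (tt QB c) = tt QB c := by
  rw [ah_apply, act_def, pm_tt, jj_tt]

lemma ah_T3 (σ : GK i₀) : ah hi a σ (T3 hi) = T3 hi - tt QB (a σ) := by
  rw [ah_apply, act_def, pm_T3 hi (gh σ) hi (gk_fix σ), jj_T3]

lemma ah_nT3 (σ : GK i₀) (c : ZMod 3) :
    ah hi a σ (c.val • T3 hi) - c.val • T3 hi = -tt QB (c * a σ) := by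
  rw [map_nsmul, ah_T3, smul_sub, nsmul_tt, ZMod.natCast_zmod_val]
  abel

variable {a} in
lemma ah_mul (ha : ∀ σ τ, a (σ * τ) = a σ + a τ) (σ τ : GK i₀) (P : Pt QB) :
    ah hi a (σ * τ) P = ah hi a σ (ah hi a τ P) := by
  rw [ah_apply, ah_apply, ah_apply, act_def, act_def, act_def,
    pm_jj hi (gh σ) hi (gk_fix σ), jj_jj, pm_pm, ha, gh_mul]

/-- local constancy of the action on a number -/
lemma lc_apply (x : QB) : IsLocallyConstant (fun σ : GK i₀ => σ x) := by
  rw [IsLocallyConstant.iff_exists_open]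
  intro σ
  let E : IntermediateField (KK i₀) QB := IntermediateField.adjoin (KK i₀) {x}
  have hE : FiniteDimensional (KK i₀) E :=
    IntermediateField.adjoin.finiteDimensional (Algebra.IsIntegral.isIntegral x)
  have ho := IntermediateField.fixingSubgroup_isOpen E
  refine ⟨(fun t : GK i₀ => σ⁻¹ * t) ⁻¹' (E.fixingSubgroup : Set (GK i₀)),
    ho.preimage (continuous_const_mul _), ?_, ?_⟩
  · show σ⁻¹ * σ ∈ E.fixingSubgroup
    rw [inv_mul_cancel]
    exact one_mem _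
  · intro t ht
    have ht1 : σ⁻¹ * t ∈ E.fixingSubgroup := ht
    rw [IntermediateField.mem_fixingSubgroup_iff] at ht1
    have h1 := ht1 x (IntermediateField.subset_adjoin _ _ (Set.mem_singleton x))
    have h2 := congrArg σ h1
    rw [← AlgEquiv.mul_apply, ← mul_assoc, mul_inv_cancel, one_mul] at h2
    exact h2

lemma lc_pm (P : Pt QB) : IsLocallyConstant (fun σ : GK i₀ => pm (gh σ) P) := by
  rcases P with _ | ⟨x, y, h⟩
  · have e : (fun σ : GK i₀ => pm (gh σ) (0 : Pt QB)) = fun _ => 0 :=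
      funext fun σ => Pool.Agent.Y715.T.Df.pm_zero _
    exact e ▸ IsLocallyConstant.const _
  · have e : (fun σ : GK i₀ => pm (gh σ) (Affine.Point.some x y h : Pt QB)) = fun σ : GK i₀ =>
        (fun x' y' : QB => if hn : (W0.baseChange QB).toAffine.Nonsingular x' y' then
          (Affine.Point.some x' y' hn : Pt QB) else 0) (σ x) (σ y) := by
      funext σ
      have hn : (W0.baseChange QB).toAffine.Nonsingular (σ x) (σ y) :=
        (Affine.baseChange_nonsingular W0.toAffine (gh σ).injective ..).mpr h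
      show _ = if hn : (W0.baseChange QB).toAffine.Nonsingular (σ x) (σ y) then
          (Affine.Point.some (σ x) (σ y) hn : Pt QB) else 0
      rw [dif_pos hn, pm_some]
      rfl
    rw [e]
    exact IsLocallyConstant.comp₂ (lc_apply x) (lc_apply y)
      (fun x' y' : QB => if hn : (W0.baseChange QB).toAffine.Nonsingular x' y' then
          (Affine.Point.some x' y' hn : Pt QB) else 0)

variable {a} in
lemma lc_act (hc : IsLocallyConstant a) (P : Pt QB) :
    IsLocallyConstant (fun σ : GK i₀ => ah hi a σ P) :=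
  IsLocallyConstant.comp₂ hc (lc_pm P) (fun c Q => jj hi c Q)

end action

section tw

variable {i₀ : QB} {hi : i₀ ^ 2 + i₀ + 1 = 0} {D : Ei} {u : QB} {a : GK i₀ → ZMod 3}

include hi in
lemma prim : IsPrimitiveRoot i₀ 3 := by
  have h3 : i₀ ^ 3 = 1 := by linear_combination (i₀ - 1) * hi
  have h1 : i₀ ≠ 1 := by
    rintro rfl
    norm_num at hi
  haveI : Fact (Nat.Prime 3) := ⟨Nat.prime_three⟩
  have h2 := orderOf_eq_prime h3 h1
  exact h2 ▸ IsPrimitiveRoot.orderOf i₀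

include hi in
lemma ip_inj {c d : ZMod 3} (h : i₀ ^ c.val = i₀ ^ d.val) : c = d :=
  ZMod.val_injective 3 ((prim (hi := hi)).pow_inj (ZMod.val_lt c) (ZMod.val_lt d) h)

include hi in
lemma ip_add (c d : ZMod 3) : i₀ ^ c.val * i₀ ^ d.val = i₀ ^ (c + d).val := by
  have h3 : i₀ ^ 3 = 1 := by linear_combination (i₀ - 1) * hi
  rw [← pow_add, ZMod.val_add]
  exact pow_eq_pow_mod _ h3

lemma u_ne (hD : D ≠ 0) (h : Tw hi D u a) : u ≠ 0 := by
  rintro rfl
  have h1 := h.cube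
  rw [zero_pow three_ne_zero] at h1
  exact ev_ne hi hD h1.symm

lemma a_mul (hD : D ≠ 0) (h : Tw hi D u a) (σ τ : GK i₀) : a (σ * τ) = a σ + a τ := by
  have hu := u_ne hD h
  have h1 := h.act (σ * τ)
  rw [AlgEquiv.mul_apply, h.act τ, map_mul, map_pow, gk_fix, h.act σ, ← mul_assoc,
    ip_add (hi := hi)] at h1
  have h2 := ip_inj (hi := hi) (mul_right_cancel₀ hu h1)
  linear_combination h2

lemma a_cont (hD : D ≠ 0) (h : Tw hi D u a) : IsLocallyConstant a := by
  have hu := u_ne hD h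
  have e : a = (fun y : QB => if hx : ∃ c : ZMod 3, y = i₀ ^ (-c).val * u then hx.choose else 0) ∘
      (fun σ : GK i₀ => σ u) := by
    funext σ
    have hx : ∃ c : ZMod 3, σ u = i₀ ^ (-c).val * u := ⟨a σ, h.act σ⟩
    show a σ = if hx : ∃ c : ZMod 3, σ u = i₀ ^ (-c).val * u then hx.choose else 0
    rw [dif_pos hx]
    have h2 := ip_inj (hi := hi) (mul_right_cancel₀ hu ((h.act σ).symm.trans hx.choose_spec))
    exact neg_injective h2
  rw [e]
  exact (lc_apply u).comp _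

end tw

/-! ### cocycles -/

section coc

variable {i₀ : QB} (hi : i₀ ^ 2 + i₀ + 1 = 0) (a : GK i₀ → ZMod 3)

/-- continuous cocycles which are locally trivial -/
structure Co (f : GK i₀ → Pt QB) : Prop where
  lc : IsLocallyConstant f
  co : ∀ σ τ, f (σ * τ) = f σ + ah hi a σ (f τ)
  lo : ∀ (p : ℕ) [Fact p.Prime] (ι : QB →ₐ[ℚ] PadicAlgCl p), ∃ R : Pt (PadicAlgCl p),
      ∀ (τ : Au p) (σ : GK i₀), Cmp ι τ σ →
        pm ι (f σ) = jh (iota_sq' hi ι) (a σ) (pm (lh τ) R) - R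

variable {hi a}

lemma Co.sub {f g : GK i₀ → Pt QB} (hf : Co hi a f) (hg : Co hi a g) :
    Co hi a (fun σ => f σ - g σ) := by
  refine ⟨hf.lc.sub hg.lc, fun σ τ => ?_, fun p _ ι => ?_⟩
  · show f (σ * τ) - g (σ * τ) = f σ - g σ + ah hi a σ (f τ - g τ)
    rw [hf.co, hg.co, map_sub]
    abel
  · obtain ⟨R, h1⟩ := hf.lo p ι
    obtain ⟨R', h2⟩ := hg.lo p ι
    refine ⟨R - R', fun τ σ hc => ?_⟩
    rw [map_sub, h1 τ σ hc, h2 τ σ hc, map_sub, map_sub]
    abel

lemma Co.dd {f : GK i₀ → Pt QB} (hf : Co hi a f) : Co hi a (fun σ => dd hi (f σ)) := by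
  refine ⟨hf.lc.comp _, fun σ τ => ?_, fun p _ ι => ?_⟩
  · show CT.dd hi (f (σ * τ)) = CT.dd hi (f σ) + ah hi a σ (CT.dd hi (f τ))
    rw [hf.co, map_add, ah_dd]
  · obtain ⟨R, h1⟩ := hf.lo p ι
    have hI := iota_sq' hi ι
    refine ⟨CT.dd hI R, fun τ σ hc => ?_⟩
    have h2 : ∀ P : Pt QB, pm ι (CT.dd hi P) = CT.dd hI (pm ι P) := fun P => by
      rw [dd_apply, map_sub, pm_im ι hi hI rfl, dd_apply]
    have h3 : pm (lh τ) (CT.dd hI R) = CT.dd hI (pm (lh τ) R) := by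
      rw [dd_apply, map_sub, pm_im (lh τ) hI hI hc.fix, dd_apply]
    rw [h2, h1 τ σ hc, h3, map_sub]
    congr 1
    rw [dd_apply, dd_apply, map_sub, jh_apply, jh_apply, jj_im]

lemma Co.nsmul {f : GK i₀ → Pt QB} (hf : Co hi a f) (n : ℕ) : Co hi a (fun σ => n • f σ) := by
  refine ⟨hf.lc.comp _, fun σ τ => ?_, fun p _ ι => ?_⟩
  · show n • f (σ * τ) = n • f σ + ah hi a σ (n • f τ)
    rw [hf.co, smul_add, map_nsmul]
  · obtain ⟨R, h1⟩ := hf.lo p ι
    refine ⟨n • R, fun τ σ hc => ?_⟩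
    rw [map_nsmul, h1 τ σ hc, map_nsmul, map_nsmul, smul_sub]

lemma iota_act {p : ℕ} [Fact p.Prime] {ι : QB →ₐ[ℚ] PadicAlgCl p} {τ : Au p} {σ : GK i₀}
    (hc : Cmp ι τ σ) (P : Pt QB) :
    pm ι (ah hi a σ P) = jh (iota_sq' hi ι) (a σ) (pm (lh τ) (pm ι P)) := by
  have h : ι.comp (gh σ) = (lh τ).comp ι := AlgHom.ext fun x => (hc x).symm
  rw [ah_apply, act_def, pm_jj hi ι (iota_sq' hi ι) rfl, pm_pm, pm_pm, h, jh_apply]

/-- coboundaries -/
lemma co_cob (ha : ∀ σ τ, a (σ * τ) = a σ + a τ) (hc : IsLocallyConstant a) (P : Pt QB) :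
    Co hi a (fun σ => ah hi a σ P - P) := by
  refine ⟨(lc_act hi hc P).comp (fun Q => Q - P), fun σ τ => ?_, fun p _ ι => ?_⟩
  · show ah hi a (σ * τ) P - P = ah hi a σ P - P + ah hi a σ (ah hi a τ P - P)
    rw [ah_mul hi ha, map_sub]
    abel
  · exact ⟨pm ι P, fun τ σ hc => by rw [map_sub, iota_act hc]⟩

/-- cocycles with values in the kernel of `1 - ω` -/
lemma step0 (hs : Sel1 hi a) {f : GK i₀ → Pt QB} (hf : Co hi a f) (h0 : ∀ σ, dd hi (f σ) = 0) :
    ∃ P, ∀ σ, f σ = ah hi a σ P - P := by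
  have hex : ∀ σ, ∃ c : ZMod 3, f σ = tt QB c := fun σ => dd_ker hi (h0 σ)
  choose h hh using hex
  have hcont : IsLocallyConstant h := by
    have e : h = (fun P : Pt QB =>
        if hx : ∃ c : ZMod 3, P = tt QB c then hx.choose else 0) ∘ f := by
      ext1 σ
      show h σ = if hx : ∃ c : ZMod 3, f σ = tt QB c then hx.choose else 0
      have hx : ∃ c : ZMod 3, f σ = tt QB c := ⟨h σ, hh σ⟩
      rw [dif_pos hx]
      exact tt_inj ((hh σ).symm.trans hx.choose_spec)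
    rw [e]
    exact hf.lc.comp _
  have hmul : ∀ σ τ, h (σ * τ) = h σ + h τ := by
    intro σ τ
    apply tt_inj (L := QB)
    rw [← hh, hf.co, hh σ, hh τ, ah_tt, tt_add]
  obtain ⟨c, hc⟩ := hs h hcont hmul (by
    intro p _ ι
    obtain ⟨R, hR⟩ := hf.lo p ι
    refine ⟨R, fun τ σ hc => ?_⟩
    have h1 := hR τ σ hc
    rw [hh σ, pm_tt] at h1
    exact h1.symm)
  refine ⟨-(c.val • T3 hi), fun σ => ?_⟩
  have h1 := ah_nT3 hi a σ c
  rw [map_neg, hh σ, hc σ]
  have h2 : tt QB (c * a σ) = -(ah hi a σ (c.val • T3 hi) - c.val • T3 hi) := by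
    rw [h1, neg_neg]
  rw [h2]
  abel

/-- the key step -/
lemma step1 (ha : ∀ σ τ, a (σ * τ) = a σ + a τ) (hc : IsLocallyConstant a) (hs : Sel1 hi a)
    {f : GK i₀ → Pt QB} (hf : Co hi a f) (h : ∃ P, ∀ σ, dd hi (f σ) = ah hi a σ P - P) :
    ∃ P, ∀ σ, f σ = ah hi a σ P - P := by
  obtain ⟨P, hP⟩ := h
  obtain ⟨R, rfl⟩ := dd_surj hi P
  obtain ⟨Q, hQ⟩ := step0 hs (hf.sub (co_cob ha hc R)) (fun σ => by
    rw [map_sub, hP, map_sub, ah_dd, sub_self])
  refine ⟨R + Q, fun σ => ?_⟩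
  have h1 : f σ = (ah hi a σ R - R) + (ah hi a σ Q - Q) := by
    rw [← hQ σ]
    abel
  rw [h1, map_add]
  abel

lemma step2 (ha : ∀ σ τ, a (σ * τ) = a σ + a τ) (hc : IsLocallyConstant a) (hs : Sel1 hi a)
    {f : GK i₀ → Pt QB} (hf : Co hi a f) (h : ∃ P, ∀ σ, 3 • f σ = ah hi a σ P - P) :
    ∃ P, ∀ σ, f σ = ah hi a σ P - P := by
  apply step1 ha hc hs hf
  apply step1 ha hc hs hf.dd
  obtain ⟨P, hP⟩ := h
  refine ⟨-im (isE QB) hi P, fun σ => ?_⟩
  rw [dd_dd, hP σ, map_sub, map_neg, ah_im]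
  abel

lemma step3 (ha : ∀ σ τ, a (σ * τ) = a σ + a τ) (hc : IsLocallyConstant a) (hs : Sel1 hi a)
    (n : ℕ) : ∀ {f : GK i₀ → Pt QB}, Co hi a f → (∃ P, ∀ σ, 3 ^ n • f σ = ah hi a σ P - P) →
    ∃ P, ∀ σ, f σ = ah hi a σ P - P := by
  induction n with
  | zero =>
    rintro f hf ⟨P, hP⟩
    exact ⟨P, fun σ => by rw [← hP σ, pow_zero, one_smul]⟩
  | succ n ih =>
    rintro f hf ⟨P, hP⟩
    apply step2 ha hc hs hf
    apply ih (hf.nsmul 3)
    refine ⟨P, fun σ => ?_⟩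
    rw [← hP σ, smul_smul, pow_succ]

end coc

theorem t_SHK : S_SHK := by
  intro D hD i₀ hi u a hT hs n f hf1 hf2 hf3 hf4
  exact step3 (a_mul hD hT) (a_cont hD hT) hs n ⟨hf1, hf2, hf3⟩ hf4

end Pool.Agent.Y155.CT
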